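import Pool.Agent.Q198.Hit.Main

/-! # MP_4f0bc7_gt: Higgs bundles in the Hitchin section over `ℂ` and `ℂ*` without harmonic metric

Let `X = ℂ` or `X = ℂ*`. Every holomorphic line bundle on `X` is trivial, so a square root of the
canonical bundle has a nowhere vanishing holomorphic frame `τ` with `τ² = κ dz`, where `κ` is
holomorphic and nowhere zero; all choices of the square root are covered by the arbitrary `κ`.
In the frame `τ^{n-1}, τ^{n-3}, …, τ^{1-n}` the Higgs field of `q_j = Q_j (κ dz)^j` is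
`κ • sectionMatrix n Q`. In the proof `q_{n-1} = (n/2) (dz/σ)^{n-1}` and `q_n = (1-n) (dz/σ)^n`
with `σ = 1` on `ℂ` and `σ = z` on `ℂ*`. -/

namespace Pool.Agent.Results.MP_4f0bc7_gt.NoHarmonicMetric

open Q198.Hit Complex

/-- For every `n ≥ 3`, for `X = ℂ` and for `X = ℂ*`, and for every choice of the square root of the
canonical bundle, there are holomorphic differentials `q_j`, `2 ≤ j ≤ n`, with `q_n` and `q_{n-1}`
nowhere zero, such that the Higgs bundle in the Hitchin section attached to them has no harmonic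
metric. -/
theorem result (n : ℕ) (hn : 3 ≤ n) (U : Set ℂ) (hU : U = Set.univ ∨ U = {0}ᶜ) (κ : ℂ → ℂ)
    (hκ : DifferentiableOn ℂ κ U) (hκ0 : ∀ z ∈ U, κ z ≠ 0) :
    ∃ Q : ℕ → ℂ → ℂ, (∀ j, DifferentiableOn ℂ (Q j) U) ∧
      (∀ z ∈ U, Q n z ≠ 0 ∧ Q (n - 1) z ≠ 0) ∧
      ¬ ∃ H : ℂ → Matrix (Fin n) (Fin n) ℂ, IsHarmonicMetric U (higgs n κ Q) H := by
  obtain ⟨m, rfl⟩ : ∃ m, n = m + 3 := ⟨n - 3, by omega⟩
  have hopen : IsOpen U := by
    rcases hU with rfl | rfl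
    · exact isOpen_univ
    · exact isOpen_compl_singleton
  obtain ⟨σ, g, hσ, hσ0, hg, hgU⟩ : ∃ σ g : ℂ → ℂ, DifferentiableOn ℂ σ U ∧ (∀ z ∈ U, σ z ≠ 0) ∧
      (∀ ζ, HasDerivAt g (σ (g ζ)) ζ) ∧ (∀ ζ, g ζ ∈ U) := by
    rcases hU with rfl | rfl
    · exact ⟨fun _ => 1, fun z => z, differentiableOn_const 1, fun _ _ => one_ne_zero,
        fun ζ => hasDerivAt_id ζ, fun _ => trivial⟩
    · exact ⟨fun z => z, Complex.exp, differentiableOn_id, fun z hz => hz,
        fun ζ => Complex.hasDerivAt_exp ζ, fun ζ => Complex.exp_ne_zero ζ⟩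
  obtain ⟨u, hu2, hu1⟩ := jordan m
  have hn1 : (m : ℂ) + 3 ≠ 0 := by
    have : ((m + 3 : ℕ) : ℂ) ≠ 0 := Nat.cast_ne_zero.2 (by omega)
    exact_mod_cast this
  have hn2 : (m : ℂ) + 2 ≠ 0 := by
    have : ((m + 2 : ℕ) : ℂ) ≠ 0 := Nat.cast_ne_zero.2 (by omega)
    exact_mod_cast this
  refine ⟨fun j z => cc m (((m : ℂ) + 3) / 2) (-((m : ℂ) + 2)) j / (κ z * σ z) ^ j, ?_, ?_,
    no_metric hopen hκ hκ0 hσ hσ0 hg hgU _ 1 u hu2 hu1⟩
  · intro j
    exact (differentiableOn_const _).div ((hκ.mul hσ).pow j)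
      (fun z hz => pow_ne_zero _ (mul_ne_zero (hκ0 z hz) (hσ0 z hz)))
  · intro z hz
    have h0 := mul_ne_zero (hκ0 z hz) (hσ0 z hz)
    constructor
    · refine div_ne_zero ?_ (pow_ne_zero _ h0)
      rw [cc, if_neg (by omega), if_pos rfl]
      exact neg_ne_zero.2 hn2
    · refine div_ne_zero ?_ (pow_ne_zero _ h0)
      rw [cc, if_pos (by omega)]
      exact div_ne_zero hn1 two_ne_zero

end Pool.Agent.Results.MP_4f0bc7_gt.NoHarmonicMetric
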